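import Mathlib
import Pool.Agent.Q176.KR

namespace Pool.Agent.Results.MP_d55beb_gt.ArensPower

open Set Filter Topology Q176.KR

/-- The underlying set of the Arens space. -/
inductive Arens : Type
  | inf : Arens
  | mid (n : ℕ) : Arens
  | pt (n m : ℕ) : Arens

/-- The topology of the Arens space `S₂`: the points `pt n m` are isolated; a neighbourhood of
`mid n` contains `mid n` and all `pt n m` with `m ≥ k` for some `k`; a neighbourhood of `inf`
contains, for some `k`, a neighbourhood of each `mid n` with `n ≥ k`. -/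
instance : TopologicalSpace Arens where
  IsOpen U := (∀ n, Arens.mid n ∈ U → ∃ k, ∀ m ≥ k, Arens.pt n m ∈ U) ∧
    (Arens.inf ∈ U → ∃ k, ∃ l : ℕ → ℕ, ∀ n ≥ k, Arens.mid n ∈ U ∧ ∀ m ≥ l n, Arens.pt n m ∈ U)
  isOpen_univ := ⟨fun _ _ => ⟨0, fun _ _ => mem_univ _⟩,
    fun _ => ⟨0, fun _ => 0, fun _ _ => ⟨mem_univ _, fun _ _ => mem_univ _⟩⟩⟩
  isOpen_inter := by
    rintro U V ⟨hU, hU'⟩ ⟨hV, hV'⟩
    refine ⟨?_, ?_⟩
    · rintro n ⟨h1, h2⟩
      obtain ⟨k, hk⟩ := hU n h1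
      obtain ⟨k', hk'⟩ := hV n h2
      exact ⟨max k k', fun m hm => ⟨hk m ((le_max_left _ _).trans hm),
        hk' m ((le_max_right _ _).trans hm)⟩⟩
    · rintro ⟨h1, h2⟩
      obtain ⟨k, l, hk⟩ := hU' h1
      obtain ⟨k', l', hk'⟩ := hV' h2
      refine ⟨max k k', fun n => max (l n) (l' n), fun n hn => ⟨⟨?_, ?_⟩, fun m hm => ⟨?_, ?_⟩⟩⟩
      · exact (hk n ((le_max_left _ _).trans hn)).1
      · exact (hk' n ((le_max_right _ _).trans hn)).1
      · exact (hk n ((le_max_left _ _).trans hn)).2 m ((le_max_left _ _).trans hm)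
      · exact (hk' n ((le_max_right _ _).trans hn)).2 m ((le_max_right _ _).trans hm)
  isOpen_sUnion := by
    intro S hS
    refine ⟨?_, ?_⟩
    · rintro n ⟨U, hU, h⟩
      obtain ⟨k, hk⟩ := (hS U hU).1 n h
      exact ⟨k, fun m hm => ⟨U, hU, hk m hm⟩⟩
    · rintro ⟨U, hU, h⟩
      obtain ⟨k, l, hk⟩ := (hS U hU).2 h
      exact ⟨k, l, fun n hn => ⟨⟨U, hU, (hk n hn).1⟩, fun m hm => ⟨U, hU, (hk n hn).2 m hm⟩⟩⟩

lemma isOpen_iff (U : Set Arens) :
    IsOpen U ↔ (∀ n, Arens.mid n ∈ U → ∃ k, ∀ m ≥ k, Arens.pt n m ∈ U) ∧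
    (Arens.inf ∈ U → ∃ k, ∃ l : ℕ → ℕ, ∀ n ≥ k, Arens.mid n ∈ U ∧ ∀ m ≥ l n, Arens.pt n m ∈ U) :=
  Iff.rfl

lemma clopen_pt (n m : ℕ) : IsClopen {Arens.pt n m} := by
  constructor
  · rw [← isOpen_compl_iff, isOpen_iff]
    have h1 : ∀ n' m', m + 1 ≤ m' → Arens.pt n' m' ∈ ({Arens.pt n m} : Set Arens)ᶜ := by
      intro n' m' h hc
      rw [mem_singleton_iff, Arens.pt.injEq] at hc
      omega
    exact ⟨fun n' _ => ⟨m + 1, fun m' hm' => h1 n' m' hm'⟩,
      fun _ => ⟨0, fun _ => m + 1, fun n' _ => ⟨by simp, fun m' hm' => h1 n' m' hm'⟩⟩⟩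
  · rw [isOpen_iff]
    refine ⟨fun n' h => absurd h (by simp), fun h => absurd h (by simp)⟩

/-- Compact sets contain isolated points from only finitely many columns. -/
lemma compact_cols (K : Set Arens) (hK : IsCompact K) : ∃ N, ∀ n ≥ N, ∀ m, Arens.pt n m ∉ K := by
  classical
  by_contra hc
  push Not at hc
  let A : Set ℕ := {n | ∃ m, Arens.pt n m ∈ K}
  let s : ℕ → ℕ := fun n => if h : n ∈ A then Classical.choose h else 0
  have hs : ∀ n ∈ A, Arens.pt n (s n) ∈ K := by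
    intro n hn
    simp only [s, hn, dif_pos]
    exact Classical.choose_spec hn
  have hA : A.Infinite := by
    rw [Set.infinite_iff_exists_gt]
    intro N
    obtain ⟨n, hn, m, hm⟩ := hc (N + 1)
    exact ⟨n, ⟨m, hm⟩, by omega⟩
  let U : ℕ → Set Arens := fun k => {x | ∀ n, x = Arens.pt n (s n) → n < k}
  have hU : ∀ k, IsOpen (U k) := by
    intro k
    rw [isOpen_iff]
    have h1 : ∀ n m, s n + 1 ≤ m → Arens.pt n m ∈ U k := by
      intro n m hnm n' h
      rw [Arens.pt.injEq] at h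
      obtain ⟨rfl, rfl⟩ := h
      omega
    exact ⟨fun n _ => ⟨s n + 1, fun m hm => h1 n m hm⟩,
      fun _ => ⟨0, fun n => s n + 1, fun n _ => ⟨fun n' h => by simp at h,
        fun m hm => h1 n m hm⟩⟩⟩
  have hcov : K ⊆ ⋃ k, U k := by
    intro x _
    rw [mem_iUnion]
    cases x with
    | inf => exact ⟨0, fun n h => by simp at h⟩
    | mid n => exact ⟨0, fun n h => by simp at h⟩
    | pt n m => exact ⟨n + 1, fun n' h => by rw [Arens.pt.injEq] at h; omega⟩
  have hdir : Directed (· ⊆ ·) U := by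
    intro i j
    exact ⟨max i j, fun x hx n h => lt_of_lt_of_le (hx n h) (le_max_left _ _),
      fun x hx n h => lt_of_lt_of_le (hx n h) (le_max_right _ _)⟩
  obtain ⟨k, hk⟩ := hK.elim_directed_cover U hU hcov hdir
  obtain ⟨n, hn, hkn⟩ := hA.exists_gt k
  have := hk (hs n hn) n rfl
  omega

/-- The countable power of the Arens space is not a `k_R`-space. -/
theorem result : ¬ IsKR (ℕ → Arens) := by
  apply not_isKR Arens.inf Arens.pt (fun m => Arens.pt m 0) clopen_pt (fun m => clopen_pt m 0)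
  · exact compact_cols
  · intro K hK
    obtain ⟨N, hN⟩ := compact_cols K hK
    exact ⟨N, fun m hm => hN m hm 0⟩
  · intro W hW hp
    obtain ⟨k, l, hk⟩ := hW.2 hp
    exact ⟨k, fun n hn => ⟨l n, (hk n hn).2 (l n) le_rfl⟩⟩
  · intro n m h
    simp at h

end Pool.Agent.Results.MP_d55beb_gt.ArensPower
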