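import Mathlib
import Pool.Agent.Q176.KR

namespace Pool.Agent.Results.MP_d55beb_gt.FanPower

open Set Filter Topology Q176.KR

/-- The underlying set of the sequential fan. -/
inductive Fan : Type
  | inf : Fan
  | pt (n m : ℕ) : Fan

/-- The topology of the sequential fan `S_ω`: the points `pt n m` are isolated and a set
containing `inf` is open iff for some `f` it contains all `pt n m` with `f n ≤ m`. -/
instance : TopologicalSpace Fan where
  IsOpen U := Fan.inf ∈ U → ∃ f : ℕ → ℕ, ∀ n m, f n ≤ m → Fan.pt n m ∈ U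
  isOpen_univ := fun _ => ⟨fun _ => 0, fun _ _ _ => mem_univ _⟩
  isOpen_inter := by
    rintro U V hU hV ⟨h1, h2⟩
    obtain ⟨f, hf⟩ := hU h1
    obtain ⟨g, hg⟩ := hV h2
    exact ⟨fun n => max (f n) (g n), fun n m hnm =>
      ⟨hf n m ((le_max_left _ _).trans hnm), hg n m ((le_max_right _ _).trans hnm)⟩⟩
  isOpen_sUnion := by
    rintro S hS ⟨U, hU, hi⟩
    obtain ⟨f, hf⟩ := hS U hU hi
    exact ⟨f, fun n m hnm => ⟨U, hU, hf n m hnm⟩⟩

lemma isOpen_iff (U : Set Fan) :
    IsOpen U ↔ (Fan.inf ∈ U → ∃ f : ℕ → ℕ, ∀ n m, f n ≤ m → Fan.pt n m ∈ U) := Iff.rfl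

lemma clopen_pt (n m : ℕ) : IsClopen {Fan.pt n m} := by
  constructor
  · rw [← isOpen_compl_iff, isOpen_iff]
    intro _
    refine ⟨fun _ => m + 1, fun n' m' h => ?_⟩
    intro hc
    rw [mem_singleton_iff, Fan.pt.injEq] at hc
    simp only at h
    omega
  · rw [isOpen_iff]
    intro h
    exact absurd h (by simp)

/-- Compact sets meet only finitely many columns. -/
lemma compact_cols (K : Set Fan) (hK : IsCompact K) : ∃ N, ∀ n ≥ N, ∀ m, Fan.pt n m ∉ K := by
  classical
  by_contra hc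
  push Not at hc
  -- a selection of points of `K`, one in each column that meets `K`
  let A : Set ℕ := {n | ∃ m, Fan.pt n m ∈ K}
  let s : ℕ → ℕ := fun n => if h : n ∈ A then Classical.choose h else 0
  have hs : ∀ n ∈ A, Fan.pt n (s n) ∈ K := by
    intro n hn
    simp only [s, hn, dif_pos]
    exact Classical.choose_spec hn
  have hA : A.Infinite := by
    rw [Set.infinite_iff_exists_gt]
    intro N
    obtain ⟨n, hn, m, hm⟩ := hc (N + 1)
    exact ⟨n, ⟨m, hm⟩, by omega⟩
  let U : ℕ → Set Fan := fun k => {x | ∀ n, x = Fan.pt n (s n) → n < k}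
  have hU : ∀ k, IsOpen (U k) := by
    intro k
    rw [isOpen_iff]
    intro _
    refine ⟨fun n => s n + 1, fun n m hnm n' h => ?_⟩
    rw [Fan.pt.injEq] at h
    obtain ⟨rfl, rfl⟩ := h
    simp only at hnm
    omega
  have hcov : K ⊆ ⋃ k, U k := by
    intro x _
    rw [mem_iUnion]
    cases x with
    | inf => exact ⟨0, fun n h => by simp at h⟩
    | pt n m => exact ⟨n + 1, fun n' h => by rw [Fan.pt.injEq] at h; omega⟩
  have hdir : Directed (· ⊆ ·) U := by
    intro i j
    exact ⟨max i j, fun x hx n h => lt_of_lt_of_le (hx n h) (le_max_left _ _),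
      fun x hx n h => lt_of_lt_of_le (hx n h) (le_max_right _ _)⟩
  obtain ⟨k, hk⟩ := hK.elim_directed_cover U hU hcov hdir
  obtain ⟨n, hn, hkn⟩ := hA.exists_gt k
  have := hk (hs n hn) n rfl
  omega

/-- The countable power of the sequential fan is not a `k_R`-space. -/
theorem result : ¬ IsKR (ℕ → Fan) := by
  apply not_isKR Fan.inf Fan.pt (fun m => Fan.pt m 0) clopen_pt (fun m => clopen_pt m 0)
  · exact compact_cols
  · intro K hK
    obtain ⟨N, hN⟩ := compact_cols K hK
    exact ⟨N, fun m hm => hN m hm 0⟩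
  · intro W hW hp
    obtain ⟨f, hf⟩ := hW hp
    exact ⟨0, fun n _ => ⟨f n, hf n (f n) le_rfl⟩⟩
  · intro n m h
    simp at h

end Pool.Agent.Results.MP_d55beb_gt.FanPower
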